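import Mathlib

open Polynomial

namespace Pool.Agent.Results.MP_c10dfe_an.NotTransitive

/-- `SemiConj A B` is the relation `A ≥ B` (`A` is semi-conjugate to `B`): there is a
non-constant complex polynomial `π` with `π ∘ A = B ∘ π`. -/
def SemiConj (A B : ℂ[X]) : Prop :=
  ∃ π : ℂ[X], 0 < π.natDegree ∧ π.comp A = B.comp π

/-- `P` and `Q` are strictly intertwined: some polynomial `Φ` of degree at least two satisfies
`Φ ≥ P` and `Φ ≥ Q`. -/
def StrictlyIntertwined (P Q : ℂ[X]) : Prop :=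
  ∃ Φ : ℂ[X], 2 ≤ Φ.natDegree ∧ SemiConj Φ P ∧ SemiConj Φ Q

/-- A fixed point `z` of `A` is sent by a semi-conjugacy `π` to a fixed point of `B`, whose
multiplier is a positive power of the multiplier of `z`. -/
lemma multiplier {A B π : ℂ[X]} (hπ : 0 < π.natDegree) (h : π.comp A = B.comp π) {z : ℂ}
    (hz : A.eval z = z) :
    B.eval (π.eval z) = π.eval z ∧
      ∃ e : ℕ, 1 ≤ e ∧ B.derivative.eval (π.eval z) = (A.derivative.eval z) ^ e := by
  have h0 : B.eval (π.eval z) = π.eval z := by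
    have := congrArg (Polynomial.eval z) h
    simp only [eval_comp, hz] at this
    exact this.symm
  refine ⟨h0, ?_⟩
  set p := π.eval z with hp
  have hne : π - C p ≠ 0 := by
    intro hc
    have : π = C p := sub_eq_zero.mp hc
    rw [this] at hπ
    simp at hπ
  obtain ⟨g, hg, hgd⟩ := Polynomial.exists_eq_pow_rootMultiplicity_mul_and_not_dvd (π - C p) hne z
  set e := (π - C p).rootMultiplicity z with he
  have hroot : (π - C p).IsRoot z := by simp [IsRoot, hp]
  have he1 : 1 ≤ e := by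
    have : 0 < (π - C p).rootMultiplicity z := (rootMultiplicity_pos hne).mpr hroot
    exact this
  have hgz : g.eval z ≠ 0 := by
    intro hc
    exact hgd (dvd_iff_isRoot.mpr hc)
  obtain ⟨a, ha⟩ : (X - C z) ∣ (A - C z) := dvd_iff_isRoot.mpr (by simp [IsRoot, hz])
  obtain ⟨k, hk⟩ : (X - C p) ∣ (B - C p) := dvd_iff_isRoot.mpr (by simp [IsRoot, h0])
  have hA : A = C z + (X - C z) * a := by rw [← ha]; ring
  have hB : B = C p + (X - C p) * k := by rw [← hk]; ring
  have hA' : A.derivative.eval z = a.eval z := by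
    rw [hA]; simp [derivative_mul]
  have hB' : B.derivative.eval p = k.eval p := by
    rw [hB]; simp [derivative_mul]
  have e1 : π.comp A - C p = (X - C z) ^ e * (a ^ e * g.comp A) := by
    have : π.comp A - C p = (π - C p).comp A := by simp
    rw [this, hg]
    simp only [mul_comp, pow_comp, sub_comp, X_comp, C_comp]
    rw [ha, mul_pow]; ring
  have e2 : B.comp π - C p = (X - C z) ^ e * (g * k.comp π) := by
    have : B.comp π - C p = (B - C p).comp π := by simp
    rw [this, hk]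
    simp only [mul_comp, sub_comp, X_comp, C_comp]
    rw [hg]; ring
  have e3 : a ^ e * g.comp A = g * k.comp π := by
    have : (X - C z) ^ e * (a ^ e * g.comp A) = (X - C z) ^ e * (g * k.comp π) := by
      rw [← e1, ← e2, h]
    exact mul_left_cancel₀ (pow_ne_zero _ (X_sub_C_ne_zero z)) this
  have e4 := congrArg (Polynomial.eval z) e3
  simp only [eval_mul, eval_pow, eval_comp, hz] at e4
  refine ⟨e, he1, ?_⟩
  rw [hB', hA']
  have : k.eval p * g.eval z = (a.eval z) ^ e * g.eval z := by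
    rw [e4]; ring
  exact mul_right_cancel₀ hgz this

/-- The polynomial whose roots are the parameters `c` with a given multiplicative relation. -/
noncomputable def rel (d : ℕ) (ε : ℂ) (m n : ℕ) : ℂ[X] :=
  (C (d : ℂ) - C ((d : ℂ) - 1) * X) ^ m - (C (d : ℂ) - C (((d : ℂ) - 1) * ε) * X) ^ n

lemma rel_ne_zero {d : ℕ} (hd : 3 ≤ d) {ε : ℂ} (hε : ε ≠ 1) {m n : ℕ} (hm : 1 ≤ m) :
    rel d ε m n ≠ 0 := by
  intro hc
  have hd1 : (d : ℂ) - 1 ≠ 0 := by
    intro h
    have : (d : ℂ) = 1 := sub_eq_zero.mp h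
    have : d = 1 := by exact_mod_cast this
    omega
  have hd0 : (d : ℂ) ≠ 0 := by
    intro h
    have : d = 0 := by exact_mod_cast h
    omega
  have := congrArg (Polynomial.eval ((d : ℂ) / ((d : ℂ) - 1))) hc
  simp only [rel, eval_sub, eval_pow, eval_mul, eval_C, eval_X, eval_zero] at this
  have h1 : (d : ℂ) - ((d : ℂ) - 1) * ((d : ℂ) / ((d : ℂ) - 1)) = 0 := by
    field_simp; ring
  have h2 : (d : ℂ) - ((d : ℂ) - 1) * ε * ((d : ℂ) / ((d : ℂ) - 1)) = d * (1 - ε) := by
    field_simp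
  rw [h1, h2, zero_pow (by omega), zero_sub, neg_eq_zero] at this
  have h3 : (d : ℂ) * (1 - ε) ≠ 0 := mul_ne_zero hd0 (sub_ne_zero.mpr (Ne.symm hε))
  exact pow_ne_zero _ h3 this

/-- There is a parameter `c` in the punctured unit disc avoiding all relations. -/
lemma exists_param {d : ℕ} (hd : 3 ≤ d) {ε : ℂ} (hε : ε ≠ 1) :
    ∃ c : ℂ, 0 < ‖c‖ ∧ ‖c‖ < 1 ∧ ∀ m n : ℕ, 1 ≤ m →
      ((d : ℂ) - ((d : ℂ) - 1) * c) ^ m ≠ ((d : ℂ) - ((d : ℂ) - 1) * ε * c) ^ n := by
  set bad : Set ℂ := ⋃ m : ℕ, ⋃ n : ℕ, {c : ℂ | 1 ≤ m ∧ (rel d ε m n).IsRoot c} with hbad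
  have hcount : bad.Countable := by
    refine Set.countable_iUnion fun m => Set.countable_iUnion fun n => ?_
    by_cases hm : 1 ≤ m
    · refine Set.Countable.mono (s₂ := {c : ℂ | (rel d ε m n).IsRoot c}) ?_ ?_
      · intro c hc; exact hc.2
      · exact (Polynomial.finite_setOfPred_isRoot (rel_ne_zero hd hε hm)).countable
    · refine Set.Countable.mono (s₂ := (∅ : Set ℂ)) ?_ Set.countable_empty
      intro c hc; exact absurd hc.1 hm
  have hdense : Dense badᶜ := hcount.dense_compl ℝ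
  obtain ⟨c, hc1, hc2⟩ := hdense.exists_mem_open (U := Metric.ball (1 / 2 : ℂ) (1 / 4))
    Metric.isOpen_ball ⟨1 / 2, Metric.mem_ball_self (by norm_num)⟩
  have hc3 : ‖c - 1 / 2‖ < 1 / 4 := by simpa [dist_eq_norm] using hc2
  have hhalf : ‖(1 / 2 : ℂ)‖ = 1 / 2 := by norm_num
  have hlow : (1 / 4 : ℝ) < ‖c‖ := by
    have : ‖(1 / 2 : ℂ)‖ ≤ ‖c‖ + ‖c - 1 / 2‖ := by
      have := norm_sub_le c (c - 1 / 2)
      simpa using this
    linarith
  have hup : ‖c‖ < 3 / 4 := by
    have : ‖c‖ ≤ ‖c - 1 / 2‖ + ‖(1 / 2 : ℂ)‖ := by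
      have := norm_add_le (c - 1 / 2) (1 / 2 : ℂ)
      simpa using this
    linarith
  refine ⟨c, by linarith, by linarith, ?_⟩
  intro m n hm hEq
  apply hc1
  simp only [hbad, Set.mem_iUnion]
  refine ⟨m, n, hm, ?_⟩
  simp only [rel, IsRoot, eval_sub, eval_pow, eval_mul, eval_C, eval_X]
  rw [hEq, sub_self]

/-- For every degree `d ≥ 3` strict intertwining is not transitive on the polynomials of degree
`d`: there are `P, Q, R` of degree `d` with `P, R` strictly intertwined and `R, Q` strictly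
intertwined, while no polynomial `Φ` at all satisfies `Φ ≥ P` and `Φ ≥ Q`. -/
theorem result : ∀ d : ℕ, 3 ≤ d → ∃ P Q R : ℂ[X],
    P.natDegree = d ∧ Q.natDegree = d ∧ R.natDegree = d ∧
    StrictlyIntertwined P R ∧ StrictlyIntertwined R Q ∧
    ¬ ∃ Φ : ℂ[X], SemiConj Φ P ∧ SemiConj Φ Q := by
  intro d hd
  -- a root of unity of order `d - 1`
  obtain ⟨ε, hε1, hεpow⟩ : ∃ ε : ℂ, ε ≠ 1 ∧ ε ^ (d - 1) = 1 := by
    have hprim := Complex.isPrimitiveRoot_exp (d - 1) (by omega)
    exact ⟨_, hprim.ne_one (by omega), hprim.pow_eq_one⟩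
  have hεnorm : ‖ε‖ = 1 := by
    have : ‖ε‖ ^ (d - 1) = 1 := by rw [← norm_pow, hεpow, norm_one]
    exact (pow_eq_one_iff_of_nonneg (norm_nonneg _) (by omega)).mp this
  have hε0 : ε ≠ 0 := by
    intro h; rw [h, norm_zero] at hεnorm; exact zero_ne_one hεnorm
  obtain ⟨c, hc0, hc1, hrel⟩ := exists_param hd hε1
  have hcne : c ≠ 0 := norm_pos_iff.mp hc0
  set P : ℂ[X] := X ^ d + C c * X with hP
  set Q : ℂ[X] := C ε * P with hQ
  set R : ℂ[X] := X * (X + C c) ^ (d - 1) with hR
  have hPdeg : P.natDegree = d := by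
    rw [hP]
    have : (C c * X : ℂ[X]).natDegree < (X ^ d : ℂ[X]).natDegree := by
      rw [natDegree_X_pow]
      calc (C c * X : ℂ[X]).natDegree ≤ 1 := by
            simpa using natDegree_C_mul_le c (X : ℂ[X])
        _ < d := by omega
    rw [natDegree_add_eq_left_of_natDegree_lt this, natDegree_X_pow]
  have hQdeg : Q.natDegree = d := by
    rw [hQ, natDegree_C_mul hε0, hPdeg]
  have hRdeg : R.natDegree = d := by
    rw [hR, natDegree_X_mul (pow_ne_zero _ (X_add_C_ne_zero c)), natDegree_pow, natDegree_X_add_C]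
    omega
  -- `X ^ (d-1)` semi-conjugates `P` and `Q` to `R`
  have hPR : SemiConj P R := by
    refine ⟨X ^ (d - 1), by rw [natDegree_X_pow]; omega, ?_⟩
    have hfac : P = X * (X ^ (d - 1) + C c) := by
      rw [hP]
      have : (X : ℂ[X]) ^ d = X * X ^ (d - 1) := by
        rw [← pow_succ']; congr 1; omega
      rw [this]; ring
    rw [hR, X_pow_comp]
    simp only [mul_comp, pow_comp, add_comp, X_comp, C_comp]
    rw [hfac, mul_pow]
  have hQR : SemiConj Q R := by
    refine ⟨X ^ (d - 1), by rw [natDegree_X_pow]; omega, ?_⟩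
    have hfac : P = X * (X ^ (d - 1) + C c) := by
      rw [hP]
      have : (X : ℂ[X]) ^ d = X * X ^ (d - 1) := by
        rw [← pow_succ']; congr 1; omega
      rw [this]; ring
    rw [hR, X_pow_comp, hQ, mul_pow, ← C_pow, hεpow]
    simp only [mul_comp, pow_comp, add_comp, X_comp, C_comp]
    rw [hfac, mul_pow]; simp
  have hrefl : ∀ A : ℂ[X], SemiConj A A := fun A => ⟨X, by simp, by simp⟩
  refine ⟨P, Q, R, hPdeg, hQdeg, hRdeg, ⟨P, by omega, hrefl P, hPR⟩, ⟨Q, by omega, hQR, hrefl Q⟩,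
    ?_⟩
  rintro ⟨Φ, ⟨π₁, hπ₁, h₁⟩, ⟨π₂, hπ₂, h₂⟩⟩
  -- `Φ` has degree `d`, hence a fixed point
  have hΦdeg : Φ.natDegree = d := by
    have := congrArg natDegree h₁
    rw [natDegree_comp, natDegree_comp, hPdeg, mul_comm] at this
    exact Nat.eq_of_mul_eq_mul_right hπ₁ this
  obtain ⟨z, hz⟩ : ∃ z : ℂ, Φ.eval z = z := by
    have hdeg : (Φ - X).natDegree = d := by
      rw [natDegree_sub_eq_left_of_natDegree_lt]
      · exact hΦdeg
      · rw [natDegree_X, hΦdeg]; omega
    have hdeg' : (Φ - X).degree ≠ 0 := by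
      intro hc
      have h3 : (Φ - X).natDegree = 0 := natDegree_eq_zero_iff_degree_le_zero.mpr hc.le
      omega
    obtain ⟨z, hz⟩ := IsAlgClosed.exists_root (Φ - X) hdeg'
    exact ⟨z, by simpa [IsRoot, sub_eq_zero] using hz⟩
  obtain ⟨hp, e, he, hpe⟩ := multiplier hπ₁ h₁ hz
  obtain ⟨hq, f, hf, hqf⟩ := multiplier hπ₂ h₂ hz
  set p := π₁.eval z
  set q := π₂.eval z
  set l := Φ.derivative.eval z
  have hdc : ((d : ℂ) - 1) = ((d - 1 : ℕ) : ℂ) := by
    rw [Nat.cast_sub (by omega)]; simp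
  -- multipliers of the fixed points of `P`
  have hPmul : l ^ e = c ∨ l ^ e = (d : ℂ) - ((d : ℂ) - 1) * c := by
    have hder : P.derivative.eval p = d * p ^ (d - 1) + c := by
      rw [hP, derivative_add, derivative_X_pow, derivative_C_mul, derivative_X]
      simp
    have hfix : p ^ d + c * p = p := by
      have := hp
      rw [hP] at this
      simpa using this
    have hpd : p ^ d = p * p ^ (d - 1) := by
      rw [← pow_succ']; congr 1; omega
    rw [← hpe, hder]
    by_cases h0 : p = 0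
    · left
      rw [h0, zero_pow (by omega)]; ring
    · right
      have : p ^ (d - 1) + c = 1 := by
        have h3 : p * (p ^ (d - 1) + c) = p * 1 := by
          rw [mul_add, ← hpd, mul_comm p c, hfix, mul_one]
        exact mul_left_cancel₀ h0 h3
      have h4 : p ^ (d - 1) = 1 - c := by rw [← this]; ring
      rw [h4]; ring
  have hQmul : l ^ f = ε * c ∨ l ^ f = (d : ℂ) - ((d : ℂ) - 1) * ε * c := by
    have hder : Q.derivative.eval q = ε * (d * q ^ (d - 1) + c) := by
      rw [hQ, hP, derivative_C_mul, derivative_add, derivative_X_pow, derivative_C_mul,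
        derivative_X]
      simp
    have hfix : ε * (q ^ d + c * q) = q := by
      have := hq
      rw [hQ, hP] at this
      simpa using this
    have hqd : q ^ d = q * q ^ (d - 1) := by
      rw [← pow_succ']; congr 1; omega
    rw [← hqf, hder]
    by_cases h0 : q = 0
    · left
      rw [h0, zero_pow (by omega)]; ring
    · right
      have h2 : ε * (q ^ (d - 1) + c) = 1 := by
        have h3 : q * (ε * (q ^ (d - 1) + c)) = q * 1 := by
          rw [hqd] at hfix
          linear_combination hfix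
        exact mul_left_cancel₀ h0 h3
      linear_combination (d : ℂ) * h2
  have hdr : (3 : ℝ) ≤ d := by exact_mod_cast hd
  -- a lower bound for the multipliers of the nonzero fixed points
  have hbig : ∀ w : ℂ, ‖w‖ < 1 → 1 < ‖(d : ℂ) - ((d : ℂ) - 1) * w‖ := by
    intro w hw
    have h1 : ‖(d : ℂ)‖ = d := by simp
    have h2 : ‖((d : ℂ) - 1) * w‖ = ((d : ℝ) - 1) * ‖w‖ := by
      rw [norm_mul, hdc, Complex.norm_natCast, Nat.cast_sub (by omega)]; simp
    have h3 : ‖(d : ℂ)‖ - ‖((d : ℂ) - 1) * w‖ ≤ ‖(d : ℂ) - ((d : ℂ) - 1) * w‖ :=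
      norm_sub_norm_le _ _
    rw [h1, h2] at h3
    nlinarith
  have hεc : ‖ε * c‖ = ‖c‖ := by rw [norm_mul, hεnorm, one_mul]
  have hsmall : ∀ k : ℕ, 1 ≤ k → ‖l ^ k‖ < 1 → ‖l‖ < 1 := by
    intro k hk hlt
    by_contra hge
    push Not at hge
    have : (1 : ℝ) ≤ ‖l‖ ^ k := one_le_pow₀ hge
    rw [norm_pow] at hlt
    linarith
  have hpowsmall : ∀ k : ℕ, 1 ≤ k → ‖l‖ < 1 → ‖l ^ k‖ < 1 := by
    intro k hk hlt
    rw [norm_pow]
    exact pow_lt_one₀ (norm_nonneg _) hlt (by omega)
  rcases hPmul with h1 | h1 <;> rcases hQmul with h2 | h2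
  · -- both multipliers small
    have hl1 : ‖l‖ < 1 := hsmall e he (by rw [h1]; exact hc1)
    have hl0 : 0 < ‖l‖ := by
      rw [norm_pos_iff]
      intro h0
      rw [h0, zero_pow (by omega)] at h1
      exact hcne h1.symm
    have hn : ‖l‖ ^ e = ‖l‖ ^ f := by
      rw [← norm_pow, ← norm_pow, h1, h2, hεc]
    have hef : e = f := (pow_right_injective₀ hl0 hl1.ne) hn
    rw [hef] at h1
    rw [h1] at h2
    have : ε = 1 := by
      have h3 : ε * c = 1 * c := by rw [one_mul]; exact h2.symm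
      exact mul_right_cancel₀ hcne h3
    exact hε1 this
  · have hl1 : ‖l‖ < 1 := hsmall e he (by rw [h1]; exact hc1)
    have h3 := hpowsmall f hf hl1
    rw [h2, mul_assoc] at h3
    have := hbig (ε * c) (by rw [hεc]; exact hc1)
    linarith
  · have hl1 : ‖l‖ < 1 := hsmall f hf (by rw [h2, hεc]; exact hc1)
    have h3 := hpowsmall e he hl1
    rw [h1] at h3
    have := hbig c hc1
    linarith
  · apply hrel f e hf
    rw [← h1, ← h2, ← pow_mul, ← pow_mul, mul_comm]

end Pool.Agent.Results.MP_c10dfe_an.NotTransitive
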